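import Pool.Agent.H84.FK.Targets3

set_option autoImplicit false

namespace Pool.Agent.H50.FK2

open Pool.Agent.H84.FK

theorem pf_z5 (hZ5A : T_Z5A) (hZ5E : T_Z5E) (hZ5O : T_Z5O) (hZ5C : T_Z5C) (hZ5D : T_Z5D) :
    T_Z5 := by
  intro G _ A A0 B B0 h u d huA hcu hu2 hune hdB hdu
  by_contra hdn
  obtain ⟨M, hM⟩ := hZ5A G A A0 B B0 h u d huA hcu hu2 hune hdB hdn hdu
  have hv : ∃ v ∈ B0, v ≠ 1 ∧ v⁻¹ * u * v ∈ M := by
    by_cases h2 : 2 ∣ Nat.card B0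
    · exact hZ5E G A A0 B B0 M u d h hM h2
    · exact hZ5O G A A0 B B0 M u d h hM h2
  exact hZ5D G A A0 B B0 M u d h hM (hZ5C G A A0 B B0 M u d h hM hv)

end Pool.Agent.H50.FK2
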